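import Mathlib
import Pool.Agent.X332.GS.Arith
import Pool.Agent.X332.GS.Cls

/-!
# Rational points, periodicity of sequences, and group curves

Let `X = {F = 0}` be a complex projective variety (any closed subset of `P^n`), and let `Z` be closed
in `X`.

(1) If for all finitely generated fields `L ⊂ ℂ` only finitely many points of `X ∖ Z` have
homogeneous coordinates in `L` (`FieldsFinite`; for `Z = ∅` this is the finiteness of `X(L)` for all
`L`), then all sequences of points of `X ∖ Z` which are given by towers of linear recurrences over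
finitely generated fields of sequences are eventually periodic (`TowersPeriodic`).

(2) If these sequences are eventually periodic, then every nonconstant image of a group curve in `X`
lies in `Z`. Group curves are entire curves in a projective space all of whose translates `φ(z + t)`
are images of `φ(z)` under rational maps, as the curves `z ↦ exp(z v) g` in an algebraic group.

(3) There is a smallest closed subset `SpArith` of `X` with the property of (1), and a smallest closed
subset `SpDyn` with the property of (2), and `SpGrp ⊆ SpDyn ⊆ SpArith`, where `SpGrp` is the closure of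
the union of the nonconstant images of group curves.

(4) Let the `F e` be nested sums of high powers of linear forms, or all of them nested sums of high
powers of monomials. Then the converse of (2) holds: if all images of nonconstant morphisms from the
multiplicative group to `X` lie in `Z`, then the sequences of points of `X ∖ Z` given by towers are
eventually periodic. So for `Z = ∅`: `X` is groupless if and only if all sequences of points of `X`
given by towers are eventually periodic.
-/

set_option autoImplicit false

namespace Pool.Agent.Results.MP_c7af3c_ag.ArithmeticDynamical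

open MvPolynomial Filter Pool.Agent.W602.GT Pool.Agent.X332.GS
open Pool.Agent.X332.GT (Zeros Forms)
open Pool.Agent.TH710.ND (HighTowers)

theorem result (n : ℕ) (ι : Type) (F : ι → MvPolynomial (Fin (n + 1)) ℂ)
    (hF : ∀ e, IsForm (F e)) :
    (∀ S : Set (MvPolynomial (Fin (n + 1)) ℂ), Forms S →
      (FieldsFinite F (Zeros ℂ S) → TowersPeriodic F (Zeros ℂ S)) ∧
      (TowersPeriodic F (Zeros ℂ S) → ∀ y, GrpImage F y → ∀ z, y z ∈ Zeros ℂ S)) ∧
    FieldsFinite F (SpArith F) ∧ TowersPeriodic F (SpDyn F) ∧
    SpGrp F ⊆ SpDyn F ∧ SpDyn F ⊆ SpArith F ∧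
    ∀ s N h : ℕ, HighTowers s N h F → (n + 1) * ((h + 1) * (2 * s + 1) ^ 5) ≤ N →
      SpGm F = SpDyn F ∧ SpGrp F = SpDyn F ∧
      (∀ S : Set (MvPolynomial (Fin (n + 1)) ℂ), Forms S →
        [TowersPeriodic F (Zeros ℂ S), FieldsPeriodic F (Zeros ℂ S),
          ∀ y, GrpImage F y → ∀ z, y z ∈ Zeros ℂ S,
          ∀ P, GmCurve F P → ∀ t : ℂ, t ≠ 0 → (fun i => (P i).eval t) ∈ Zeros ℂ S].TFAE) := by
  have h1 : ∀ S : Set (MvPolynomial (Fin (n + 1)) ℂ), Forms S →
      (TowersPeriodic F (Zeros ℂ S) → ∀ y, GrpImage F y → ∀ z, y z ∈ Zeros ℂ S) :=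
    fun S hS hT y hy z => grp_of_dyn hF hS ((tow_iff hF hS).1 hT) hy z
  refine ⟨fun S hS => ⟨fun h => ?_, h1 S hS⟩, finite_spArith, tow_spDyn hF, grp_sub_dyn hF,
    dyn_sub_arith hF, fun s N h hH hN => ?_⟩
  · exact (tow_iff hF hS).2 ((fields_iff hF hS).1 (fields_of_finite h))
  · have h2 := alg_sub_gm_high hH hN
    have h3 := spDyn_of hF h2
    obtain ⟨h4, h5⟩ := grp_of hF h2
    refine ⟨h3.symm, h5.trans h4.symm, fun S hS => ?_⟩
    tfae_have 1 ↔ 2 := by rw [tow_iff hF hS, fields_iff hF hS]
    tfae_have 1 → 3 := h1 S hS
    tfae_have 3 → 4 := by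
      intro h6 P hP t ht
      have h7 : (fun i => (P i).eval t) ∈ SpGrp F := by
        rw [h5, ← h4, h3]
        exact ⟨⟨hP.ne t ht, hP.mem t ht⟩, fun H _ hH => hH P hP t ht⟩
      intro G hG
      rw [Pool.Agent.X332.GT.aeval_eval]
      exact h7.2 G (hS G hG) fun y hy z => by
        rw [← Pool.Agent.X332.GT.aeval_eval]
        exact h6 y hy z G hG
    tfae_have 4 → 1 := by
      intro h6
      refine (tow_spDyn hF).mono fun x hx hxD => ?_
      rw [h3] at hxD
      intro G hG
      exact hxD.2 G (hS G hG) fun P hP t ht => h6 P hP t ht G hG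
    tfae_finish

end Pool.Agent.Results.MP_c7af3c_ag.ArithmeticDynamical
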