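import Pool.Agent.X323.GI.Lin

/-!
# Generic members of linear systems on arbitrary projective varieties

Let `k` be a field contained in `ℂ`, with algebraic closure `k'` in `ℂ`. Let `V` be a closed subset of
the projective space of dimension `n`, defined over `k'`, of dimension at most `m` (with any
singularities). For `a` in a finite set `A` let `F_a` be a member, generic over `k`, of a linear system
over `k'` of forms of degree `d_a`, and let `Z` be a set of indices `c` such that the linear systems
contain all forms `x_c ^ (d_a - e) x_i ^ e`. Let `X` be the intersection of `V` with all hypersurfaces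
`F_a = 0`, and let `E` be the linear space `x_c = 0`, `c ∈ Z`. Suppose that the sum of the numbers
`d_a + 1` is at least `2 m + 2`. We prove that `X` is hyperbolic modulo `E` in the following senses:

* only finitely many points of `X ∖ E` have coordinates in a given finitely generated field, or in a
  given field finitely generated over `k'`;
* the sequences of points of `X ∖ E` with coordinates in finitely generated coefficient fields of
  sequences, or in towers of linear recurrences over such fields, are eventually periodic;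
* all nonconstant images of group curves in `X` under rational maps are contained in `E`. A group
  curve is an entire curve in a projective space such that each translate `φ(z + t)` is the image of
  `φ(z)` under a rational map, for instance `z ↦ exp(z v) g` in an algebraic group. So `X` is groupless
  modulo `E`, with an analytic strengthening;
* all nonconstant holomorphic maps from one-dimensional complex tori to `X` have image in `E`;
* all subvarieties of `X` of positive dimension not contained in `E` are of general type.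

If all coefficients of the forms `F_a` are algebraically independent over `k`, then `E` is empty, so that
`X` and all its closed subsets are arithmetically hyperbolic and groupless in this strong sense.
-/

set_option autoImplicit false

namespace Pool.Agent.Results.MP_c7af3c_ag.GenericLinearSystems

open MvPolynomial Pool.Agent.W602.GT Pool.Agent.X332.GS Pool.Agent.X323.GI
open scoped LinearAlgebra.Projectivization
open Pool.Agent.TH145.MG (DimLE)
open Pool.Agent.X332.GT (Zeros)
open Pool.Agent.TH143.EL (HolMap)

variable {n : ℕ}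

/-- `K` is (a finite extension of) the function field, and `y` the generic point, of a closed
subvariety of dimension `w` of `X = {H = 0}`. -/
def Subvariety {A K : Type} [Field K] [Algebra ℂ K] (H : A → MvPolynomial (Fin (n + 1)) ℂ) (w : ℕ)
    (y : Fin (n + 1) → K) : Prop :=
  (y ≠ 0 ∧ ∀ a, aeval y (H a) = 0) ∧ Algebra.trdeg ℂ K = w ∧ Algebra.IsAlgebraic (coords ℂ y) K

/-- All closed subvarieties of positive dimension of `X` that are not contained in `E` are of general
type. -/
def GeneralTypeOutside {A : Type} (H : A → MvPolynomial (Fin (n + 1)) ℂ)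
    (S : Set (MvPolynomial (Fin (n + 1)) ℂ)) : Prop :=
  ∀ (K : Type) [Field K] [Algebra ℂ K] (w : ℕ) (y : Fin (n + 1) → K), 0 < w →
    Subvariety H w y → (∃ G ∈ S, aeval y G ≠ 0) → GeneralType ℂ K w

/-- Every nonconstant holomorphic map from a one-dimensional complex torus to `X` has its image in
`E`. -/
def TorusIn {A : Type} (H : A → MvPolynomial (Fin (n + 1)) ℂ)
    (S : Set (MvPolynomial (Fin (n + 1)) ℂ)) : Prop :=
  ∀ ω₁ ω₂ : ℂ, LinearIndependent ℝ ![ω₁, ω₂] → ∀ f : ℂ → ℙ ℂ (Fin (n + 1) → ℂ), HolMap f →
    (∀ z, f (z + ω₁) = f z) → (∀ z, f (z + ω₂) = f z) → (∀ z a, eval (f z).rep (H a) = 0) →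
    (∃ z w, f z ≠ f w) → ∀ z, ∀ G ∈ S, eval (f z).rep G = 0

/-- All nonconstant images of group curves in `X` are contained in `E`. -/
def GroupIn {A : Type} (H : A → MvPolynomial (Fin (n + 1)) ℂ)
    (S : Set (MvPolynomial (Fin (n + 1)) ℂ)) : Prop :=
  ∀ y, GrpImage H y → ∀ z, y z ∈ Zeros ℂ S

/-- The notions of hyperbolicity of `X = {H = 0}` modulo the set of the zeros of the forms in `S`. -/
def HyperbolicModulo (k : Type) [Field k] [Algebra k ℂ] {A : Type}
    (H : A → MvPolynomial (Fin (n + 1)) ℂ) (S : Set (MvPolynomial (Fin (n + 1)) ℂ)) : Prop :=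
  FiniteOver k H S ∧ FieldsFinite H (Zeros ℂ S) ∧ FieldsPeriodic H (Zeros ℂ S) ∧
    TowersPeriodic H (Zeros ℂ S) ∧ GroupIn H S ∧ TorusIn H S ∧ GeneralTypeOutside H S

theorem result {k : Type} [Field k] [Algebra k ℂ] {m : ℕ}
    (V : Set (MvPolynomial (Fin (n + 1)) (algebraicClosure k ℂ)))
    (hVh : ∀ f ∈ V, ∃ e, f.IsHomogeneous e) (hV : DimLE (algebraicClosure k ℂ) V m)
    {A : Type} [Fintype A] [DecidableEq A] (d : A → ℕ) (hd : 2 * m + 2 ≤ ∑ a, (d a + 1))
    (F : A → MvPolynomial (Fin (n + 1)) ℂ) :
    -- (1) generic members of linear systems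
    (∀ Z : Set (Fin (n + 1)), GenericMembers k d Z F →
      HyperbolicModulo k (equations V F) (coordForms Z)) ∧
    -- (2) forms with independent coefficients
    ((∀ a, (F a).IsHomogeneous (d a)) → (AlgebraicIndependent k
        fun p : (a : A) × {I : Fin (n + 1) →₀ ℕ // I.degree = d a} => (F p.1).coeff p.2.1) →
      HyperbolicModulo k (equations V F) (coordForms Set.univ) ∧
      (∀ y, ¬ GrpImage (equations V F) y) ∧
      ∀ ω₁ ω₂ : ℂ, LinearIndependent ℝ ![ω₁, ω₂] → ∀ f : ℂ → ℙ ℂ (Fin (n + 1) → ℂ), HolMap f →
        (∀ z, f (z + ω₁) = f z) → (∀ z, f (z + ω₂) = f z) →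
        (∀ z a, eval (f z).rep (equations V F a) = 0) → ∀ z w, f z = f w) := by
  have key : ∀ Z : Set (Fin (n + 1)), GenericMembers k d Z F →
      HyperbolicModulo k (equations V F) (coordForms Z) := by
    intro Z hF
    have hform := forms_eq hVh (homog_of hF)
    have hS := forms_coord Z
    obtain ⟨h1, h2, h3, h4, h5⟩ := lin_main hVh hV hF hd
    refine ⟨lin_finite hVh hV hF hd, h1, h2, h3, h4, ?_, ?_⟩
    · exact fun ω₁ ω₂ hω f hf e1 e2 e3 e4 z => (inV_span hS).1
        (h5 ω₁ ω₂ hω f hf e1 e2 (fun z => (inV_eqs hform).2 (e3 z)) e4 z)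
    · rintro K _ _ w y hw hy ⟨_, ⟨c, hc, rfl⟩, hne⟩
      exact lin_gt hVh hV hF hd K w y hw hy hc (by rwa [aeval_X] at hne)
  refine ⟨key, fun hFh hind => ?_⟩
  have hk := key Set.univ (generic_full hFh hind)
  refine ⟨hk, fun y hy => ?_, ?_⟩
  · obtain ⟨z, w, i, j, hne⟩ := hy.2.2
    have h1 := hk.2.2.2.2.1 y hy z
    have h2 : ∀ c, y z c = 0 := fun c => by
      have h3 := h1 (X c) ⟨c, Set.mem_univ _, rfl⟩
      rw [aeval_X] at h3
      exact h3
    exact hne (by rw [h2, h2, zero_mul, zero_mul])
  · intro ω₁ ω₂ hω f hf h1 h2 h3 z w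
    by_contra hne
    have h4 := hk.2.2.2.2.2.1 ω₁ ω₂ hω f hf h1 h2 h3 ⟨z, w, hne⟩ 0
    exact (f 0).rep_nonzero (funext fun c => by
      have h5 := h4 (X c) ⟨c, Set.mem_univ _, rfl⟩
      rw [eval_X] at h5
      exact h5)

end Pool.Agent.Results.MP_c7af3c_ag.GenericLinearSystems
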