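import Pool.Agent.X323.GI.Ari

/-!
# Rational points, group curves and subvarieties modulo a closed subset

Let `X` be a very general complete intersection of hypersurfaces of degrees `d_a`, `a ∈ A`, in the
complex projective space of dimension `n`, with `3 n + 3 ≤ 2 ∑ d_a + |A|`. Let `Z` be any closed
subset of the projective space, given by a set `S` of forms. We prove that the following conditions
are equivalent:

* `X` is arithmetically hyperbolic modulo `Z`: for every finitely generated field `L ⊂ ℂ` only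
  finitely many points of `X ∖ Z` have coordinates in `L` (`FieldsFinite`); and also the stronger
  condition for all fields `L` generated by finite sets over the field of all algebraic numbers;
* `X` is groupless modulo `Z`: all nonconstant images of group curves in `X` under rational maps lie
  in `Z`. A group curve is an entire curve in a projective space such that each translate `φ(z + t)`
  is the image of `φ(z)` under a rational map, for instance `z ↦ exp(z v) g` in an algebraic group;
  or only: all nonconstant holomorphic maps from one-dimensional complex tori to `X` have image in `Z`;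
* the sequences of points of `X ∖ Z` given by towers of linear recurrences, or with coordinates in
  finitely generated fields of sequences, are eventually periodic;
* all closed subvarieties of `X` of positive dimension that are not contained in `Z` are of general
  type;
* the degrees of the morphisms `f` from smooth projective curves to `X` with image not in `Z` are
  bounded for each curve, or are at most `B max(2 g - 2, 0)`, with a constant `B`;
* the lines in `X` lie in `Z`.

Therefore the smallest closed sets `Z` with these properties coincide; for `|A| < n` they are proper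
closed subsets of `X`.
-/

set_option autoImplicit false

namespace Pool.Agent.Results.MP_c7af3c_ag.GenericSpecialSets

open Filter MvPolynomial FF Pool.Agent.W602.GT Pool.Agent.W603.PV Pool.Agent.X332.GS
open Pool.Agent.W603.LV
open scoped LinearAlgebra.Projectivization
open Pool.Agent.X332.GT (Zeros Forms)
open Pool.Agent.TH143.EL (HolMap)

section defs

variable {A : Type} {n : ℕ}

/-- Very general forms of degrees `d a`: their coefficients are, for all `a` together, algebraically
independent over the rational numbers. -/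
def VeryGeneral (H : A → MvPolynomial (Fin (n + 1)) ℂ) (d : A → ℕ) : Prop :=
  (∀ a, (H a).IsHomogeneous (d a)) ∧
    AlgebraicIndependent ℚ fun p : (a : A) × {I : Fin (n + 1) →₀ ℕ // I.degree = d a} =>
      (H p.1).coeff p.2.1

/-- All lines in `X` are contained in `Z`. A line is given by a vector space `W` of dimension two. -/
def LinesIn (H : A → MvPolynomial (Fin (n + 1)) ℂ) (S : Set (MvPolynomial (Fin (n + 1)) ℂ)) : Prop :=
  ∀ W : Submodule ℂ (Fin (n + 1) → ℂ),
    Module.finrank ℂ W = 2 ∧ (∀ a, ∀ v ∈ W, eval v (H a) = 0) → ∀ v ∈ W, ∀ G ∈ S, eval v G = 0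

/-- `K` is (a finite extension of) the function field, and `y` the generic point, of a closed
subvariety of dimension `w` of `X`. -/
def Subvariety {K : Type} [Field K] [Algebra ℂ K] (H : A → MvPolynomial (Fin (n + 1)) ℂ) (w : ℕ)
    (y : Fin (n + 1) → K) : Prop :=
  (y ≠ 0 ∧ ∀ a, aeval y (H a) = 0) ∧ Algebra.trdeg ℂ K = w ∧ Algebra.IsAlgebraic (coords ℂ y) K

/-- All closed subvarieties of positive dimension of `X` that are not contained in `Z` are of general
type. -/
def GeneralTypeOutside (H : A → MvPolynomial (Fin (n + 1)) ℂ)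
    (S : Set (MvPolynomial (Fin (n + 1)) ℂ)) : Prop :=
  ∀ (K : Type) [Field K] [Algebra ℂ K] (w : ℕ) (y : Fin (n + 1) → K), 0 < w →
    Subvariety H w y → (∃ G ∈ S, aeval y G ≠ 0) → GeneralType ℂ K w

/-- For some constant `B` all morphisms from smooth projective curves of genus `g` to `X`, with image
not contained in `Z`, have degree at most `B max(2 g - 2, 0)`. -/
def LinearlyBounded (H : A → MvPolynomial (Fin (n + 1)) ℂ)
    (S : Set (MvPolynomial (Fin (n + 1)) ℂ)) : Prop :=
  ∃ B : ℕ, ∀ (L : Type) [Field L] [Algebra ℂ L] [IsFF ℂ L] (f : Fin (n + 1) → L), f ≠ 0 →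
    (∀ a, aeval f (H a) = 0) → (∃ G ∈ S, aeval f G ≠ 0) → pht ℂ f ≤ B * max (canDeg ℂ L) 0

/-- For each smooth projective curve the degrees of the morphisms from the curve to `X`, with image
not contained in `Z`, are bounded. -/
def BoundedOnCurves (H : A → MvPolynomial (Fin (n + 1)) ℂ)
    (S : Set (MvPolynomial (Fin (n + 1)) ℂ)) : Prop :=
  ∀ (L : Type) [Field L] [Algebra ℂ L] [IsFF ℂ L], ∃ B : ℤ, ∀ f : Fin (n + 1) → L, f ≠ 0 →
    (∀ a, aeval f (H a) = 0) → (∃ G ∈ S, aeval f G ≠ 0) → pht ℂ f ≤ B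

/-- Every nonconstant holomorphic map from a one-dimensional complex torus to `X` has its image in
`Z`. -/
def TorusIn (H : A → MvPolynomial (Fin (n + 1)) ℂ) (S : Set (MvPolynomial (Fin (n + 1)) ℂ)) : Prop :=
  ∀ ω₁ ω₂ : ℂ, LinearIndependent ℝ ![ω₁, ω₂] → ∀ f : ℂ → ℙ ℂ (Fin (n + 1) → ℂ), HolMap f →
    (∀ z, f (z + ω₁) = f z) → (∀ z, f (z + ω₂) = f z) → (∀ z a, eval (f z).rep (H a) = 0) →
    (∃ z w, f z ≠ f w) → ∀ z, ∀ G ∈ S, eval (f z).rep G = 0

/-- All nonconstant images of group curves in `X` are contained in `Z`. -/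
def GroupIn (H : A → MvPolynomial (Fin (n + 1)) ℂ) (S : Set (MvPolynomial (Fin (n + 1)) ℂ)) : Prop :=
  ∀ y, GrpImage H y → ∀ z, y z ∈ Zeros ℂ S

/-- For every field generated by a finite set `T` over the field of the algebraic numbers, only
finitely many points of `X` outside of `Z` have coordinates in the field. -/
def FiniteOverAlgebraic (H : A → MvPolynomial (Fin (n + 1)) ℂ)
    (S : Set (MvPolynomial (Fin (n + 1)) ℂ)) : Prop :=
  ∀ T : Finset ℂ, {p : ℙ ℂ (Fin (n + 1) → ℂ) | (∀ a, eval p.rep (H a) = 0) ∧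
    (∃ G ∈ S, eval p.rep G ≠ 0) ∧ ∃ x : Fin (n + 1) → ℂ,
      (∀ i, x i ∈ IntermediateField.adjoin (algebraicClosure ℚ ℂ) (T : Set ℂ)) ∧
      ∃ hx : x ≠ 0, p = Projectivization.mk ℂ x hx}.Finite

end defs

theorem torus_iff {A : Type} {n : ℕ} {H : A → MvPolynomial (Fin (n + 1)) ℂ}
    (hH : ∀ a, IsForm (H a)) {S : Set (MvPolynomial (Fin (n + 1)) ℂ)} (hS : Forms S) :
    Pool.Agent.TH143.EL.TorusMapsIn (Pool.Agent.X323.GI.eqs H) (Ideal.span S) ↔ TorusIn H S :=
  ⟨fun h ω₁ ω₂ hω f hf h1 h2 h3 h4 z => (Pool.Agent.X323.GI.inV_span hS).1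
    (h ω₁ ω₂ hω f hf h1 h2 (fun z => (Pool.Agent.X323.GI.inV_eqs hH).2 (h3 z)) h4 z),
  fun h ω₁ ω₂ hω f hf h1 h2 h3 h4 z => (Pool.Agent.X323.GI.inV_span hS).2
    (h ω₁ ω₂ hω f hf h1 h2 (fun z => (Pool.Agent.X323.GI.inV_eqs hH).1 (h3 z)) h4 z)⟩

/-- **Arithmetic, dynamical, geometric and algebraic hyperbolicity modulo closed subsets.** -/
theorem result {n : ℕ} (hn : 1 ≤ n) {A : Type} [Fintype A] [DecidableEq A] {d : A → ℕ}
    (hd0 : ∀ a, 0 < d a) (hd : 3 * n + 3 ≤ 2 * ∑ a, d a + Fintype.card A)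
    (H : A → MvPolynomial (Fin (n + 1)) ℂ) (hH : VeryGeneral H d) :
    -- (1) the notions of hyperbolicity modulo a closed subset
    (∀ S : Set (MvPolynomial (Fin (n + 1)) ℂ), Forms S →
      [FieldsFinite H (Zeros ℂ S), FiniteOverAlgebraic H S, GroupIn H S, TorusIn H S,
        TowersPeriodic H (Zeros ℂ S), FieldsPeriodic H (Zeros ℂ S), GeneralTypeOutside H S,
        BoundedOnCurves H S, LinearlyBounded H S, LinesIn H S].TFAE) ∧
    -- (2) the special sets
    (SpArith H = SpAlg H ∧ SpGrp H = SpAlg H ∧ SpDyn H = SpAlg H ∧ SpLine H = SpAlg H) ∧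
    -- (3) the closed subvarieties of large dimension are not contained in the special set
    (∀ (K : Type) [Field K] [Algebra ℂ K] (w : ℕ) (y : Fin (n + 1) → K), 0 < w →
      2 * n + 2 ≤ ∑ a, d a + Fintype.card A + w → Subvariety H w y →
      ∃ (G : MvPolynomial (Fin (n + 1)) ℂ) (e : ℕ), G.IsHomogeneous e ∧ aeval y G ≠ 0 ∧
        FiniteOverAlgebraic H {G} ∧ GroupIn H {G}) := by
  obtain ⟨hf, hind⟩ := hH
  have hform := Pool.Agent.X323.GI.forms_of hf
  have key : ∀ S : Set (MvPolynomial (Fin (n + 1)) ℂ), Forms S →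
      [LinesIn H S, GeneralTypeOutside H S, LinearlyBounded H S, BoundedOnCurves H S, TorusIn H S,
        GroupIn H S, TowersPeriodic H (Zeros ℂ S), FieldsPeriodic H (Zeros ℂ S),
        FieldsFinite H (Zeros ℂ S), FiniteOverAlgebraic H S].TFAE := by
    intro S hS
    have h := Pool.Agent.X323.GI.ari_tfae hn hd0 hf hind hd hS
    rw [torus_iff hform hS] at h
    tfae_have 1 ↔ 2 := h.out 0 1
    tfae_have 1 ↔ 3 := h.out 0 2
    tfae_have 1 ↔ 4 := h.out 0 3
    tfae_have 1 ↔ 5 := h.out 0 4
    tfae_have 1 ↔ 6 := h.out 0 7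
    tfae_have 1 ↔ 7 := h.out 0 8
    tfae_have 1 ↔ 8 := h.out 0 9
    tfae_have 1 ↔ 9 := h.out 0 10
    tfae_have 1 ↔ 10 := h.out 0 11
    tfae_finish
  refine ⟨fun S hS => ?_, ?_, ?_⟩
  · have h := key S hS
    tfae_have 10 ↔ 7 := h.out 0 1
    tfae_have 10 ↔ 9 := h.out 0 2
    tfae_have 10 ↔ 8 := h.out 0 3
    tfae_have 10 ↔ 4 := h.out 0 4
    tfae_have 10 ↔ 3 := h.out 0 5
    tfae_have 10 ↔ 5 := h.out 0 6
    tfae_have 10 ↔ 6 := h.out 0 7
    tfae_have 10 ↔ 1 := h.out 0 8
    tfae_have 10 ↔ 2 := h.out 0 9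
    tfae_finish
  · obtain ⟨h1, -⟩ := Pool.Agent.X323.GI.loci (k0 := ℚ) hn hd0 hf hind hd
    obtain ⟨h3, h4, -⟩ := Pool.Agent.X323.GI.dyn_loci (k0 := ℚ) hn hd0 hf hind hd
    have h5 := Pool.Agent.X323.GI.ari_loci hn hd0 hf hind hd
    exact ⟨h5.trans h1.symm, h3.trans h1.symm, h4.trans h1.symm, h1.symm⟩
  · intro K _ _ w y hw hdw hy
    obtain ⟨G, e, hG, hyG, hL⟩ := Pool.Agent.X323.GI.strong (k0 := ℚ) hn hd0 hf hind hd hdw hy
    have hS : Forms ({G} : Set (MvPolynomial (Fin (n + 1)) ℂ)) := by
      rintro _ rfl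
      exact ⟨e, hG⟩
    have hL' : LinesIn H {G} := by
      rintro W hW v hv _ rfl
      exact hL W hW v hv
    have k1 : LinesIn H {G} ↔ FiniteOverAlgebraic H {G} := (key {G} hS).out 0 9
    have k2 : LinesIn H {G} ↔ GroupIn H {G} := (key {G} hS).out 0 5
    exact ⟨G, e, hG, hyG, k1.1 hL', k2.1 hL'⟩

end Pool.Agent.Results.MP_c7af3c_ag.GenericSpecialSets
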