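import Mathlib
import Pool.Agent.X316.ZE.Bdd

set_option autoImplicit false

/-!
# Elliptic curves, curves built from the zeta function, and rational points

Let `X` and `Z` be the closed subsets of the projective space given by the forms in the ideals `I`
and `I'` over a number field `K`, embedded in `ℂ` by `σ` (`Z` is empty for `I' = ⊤`). We compare
algebraic, analytic and arithmetic conditions.

* All nonconstant holomorphic maps from one-dimensional complex tori (elliptic curves) to `X_σ` have
  image in `Z_σ`.
* All nonconstant entire curves in `X_σ` built from elliptic functions and the Riemann zeta function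
  (or any jointly universal family) lie in `Z_σ`.
* The sequences of points of `X(ℂ)` outside of `Z(ℂ)` given by linear recurrences over finitely
  generated fields of sequences of transcendence degree at most one are eventually periodic. This
  implies that for all number fields `L` containing `K` the sequences of this kind in `X(L)` outside
  of `Z(L)` have only finitely many different terms.

All these conditions are equivalent. They hold if all subvarieties of `X_σ` of positive dimension
which are not contained in `Z_σ` are of general type, and if the degrees of the maps from each curve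
to `X_σ` with image not contained in `Z_σ` are bounded.

A family `u` of meromorphic functions on the plane is called jointly universal if the translates of
every finite subfamily approximate all tuples of zero-free entire functions uniformly on some disc.
By Voronin's theorem the Riemann zeta function alone is such a family. For a lattice let `B` be the
ring of the polynomials in the elliptic functions of the lattice, the functions `u j` and all their
derivatives. A curve is built from elliptic functions and `u` if for some lattice it is algebraic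
over `B`, or has homogeneous coordinates in the smallest set of meromorphic functions which contains
the quotients of elements of `B` and is closed under sums, products and meromorphic solutions of
linear systems `y' = A y` with coefficients in the set.
-/

namespace Pool.Agent.Results.MP_c7af3c_ag.UniversalGroupless

open MvPolynomial Filter FF Pool.Agent.W603.LV Pool.Agent.W603.PV
open Pool.Agent.TH143.EL (HolMap Ell)
open Pool.Agent.Y377.IL (IterLin IteratedOver AlgebraicOver)
open Pool.Agent.W602.GT (coords GeneralType)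
open Pool.Agent.X316.ZG (JointlyUniversal)
open Pool.Agent.X316.ZE (dringB)
open scoped LinearAlgebra.Projectivization

variable {K : Type} [Field K] {N : ℕ}

/-- The vector `x` with entries in `A` is a zero of all forms in the ideal `I`. -/
def On {A : Type} [CommRing A] (φ : K →+* A) (I : Ideal (MvPolynomial (Fin (N + 1)) K))
    (x : Fin (N + 1) → A) : Prop :=
  ∀ G ∈ I, (∃ d, G.IsHomogeneous d) → eval₂ φ x G = 0

/-- Every nonconstant holomorphic map from a one-dimensional complex torus to `X_σ` has its image in
`Z_σ`. -/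
def TorusIn (σ : K →+* ℂ) (I I' : Ideal (MvPolynomial (Fin (N + 1)) K)) : Prop :=
  ∀ ω₁ ω₂ : ℂ, LinearIndependent ℝ ![ω₁, ω₂] → ∀ f : ℂ → ℙ ℂ (Fin (N + 1) → ℂ), HolMap f →
    (∀ z, f (z + ω₁) = f z) → (∀ z, f (z + ω₂) = f z) → (∀ z, On σ I (f z).rep) →
    (∃ z w, f z ≠ f w) → ∀ z, On σ I' (f z).rep

/-- The curve `f` is built from the elliptic functions with the periods `ω₁` and `ω₂` and the
functions `u j`: with `B` the ring of the polynomials in these elliptic functions, the functions
`u j` and all their derivatives, the curve has homogeneous coordinates in the smallest set of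
meromorphic functions which contains the quotients of elements of `B` and is closed under sums,
products and meromorphic solutions of linear systems over the set, or it is algebraic over `B`. -/
def BuiltFrom {ι : Type} (ω₁ ω₂ : ℂ) (u : ι → ℂ → ℂ) (f : ℂ → ℙ ℂ (Fin (N + 1) → ℂ)) : Prop :=
  IteratedOver (dringB (Ell ω₁ ω₂) u) f ∨ AlgebraicOver (dringB (Ell ω₁ ω₂) u) f

/-- All nonconstant entire curves in `X_σ` which are built from elliptic functions and the functions
`u j` lie in `Z_σ`. -/
def BuiltIn {ι : Type} (u : ι → ℂ → ℂ) (σ : K →+* ℂ)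
    (I I' : Ideal (MvPolynomial (Fin (N + 1)) K)) : Prop :=
  ∀ ω₁ ω₂ : ℂ, LinearIndependent ℝ ![ω₁, ω₂] → ∀ f : ℂ → ℙ ℂ (Fin (N + 1) → ℂ), HolMap f →
    BuiltFrom ω₁ ω₂ u f → (∀ z, On σ I (f z).rep) → (∃ z w, f z ≠ f w) →
    ∀ z, On σ I' (f z).rep

/-- The algebra `B` of sequences is closed under the shift and under inversion, its elements vanish
from some index on or do not vanish from some index on, it is generated by finitely many sequences
(each element of `B` is, from some index on, a quotient of two polynomial expressions in them), and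
any two elements of `B` are algebraically dependent (transcendence degree at most one). -/
structure SeqField (B : Subalgebra ℂ (ℕ → ℂ)) : Prop where
  shift : ∀ b ∈ B, (fun m => b (m + 1)) ∈ B
  dich : ∀ b ∈ B, (∀ᶠ m in atTop, b m = 0) ∨ ∀ᶠ m in atTop, b m ≠ 0
  inv : ∀ b ∈ B, (fun m => (b m)⁻¹) ∈ B
  fin : ∃ U : Set (ℕ → ℂ), U.Finite ∧ U ⊆ B ∧ ∀ b ∈ B, ∃ p ∈ Algebra.adjoin ℂ U,
    ∃ q ∈ Algebra.adjoin ℂ U, (∀ᶠ m in atTop, q m ≠ 0) ∧ ∀ᶠ m in atTop, b m * q m = p m
  tr : ∀ b : Fin 2 → ℕ → ℂ, (∀ i, b i ∈ B) →
    ∃ P : MvPolynomial (Fin 2) ℂ, P ≠ 0 ∧ ∀ᶠ m in atTop, eval (fun i => b i m) P = 0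

/-- The sequence `f` satisfies a nontrivial linear recurrence with coefficients in `B`. -/
def Recurrent (B : Subalgebra ℂ (ℕ → ℂ)) (f : ℕ → ℂ) : Prop :=
  ∃ (r : ℕ) (a : ℕ → ℕ → ℂ), (∀ k, a k ∈ B) ∧ (∃ k ≤ r, ¬ ∀ᶠ m in atTop, a k m = 0) ∧
    ∀ᶠ m in atTop, ∑ k ∈ Finset.range (r + 1), a k m * f (m + k) = 0

/-- The points with the homogeneous coordinates `x m` form an eventually periodic sequence. -/
def EventuallyPeriodic (x : ℕ → Fin (N + 1) → ℂ) : Prop :=
  ∃ k m0 : ℕ, 0 < k ∧ ∀ m, m0 ≤ m → ∀ i j, x (m + k) i * x m j = x (m + k) j * x m i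

/-- Let `B` be a finitely generated field of sequences of transcendence degree at most one. Every
sequence of points of `X(ℂ)` outside of `Z(ℂ)` with homogeneous coordinates satisfying linear
recurrences over `B` is eventually periodic. -/
def RecurrentPeriodic (σ : K →+* ℂ) (I I' : Ideal (MvPolynomial (Fin (N + 1)) K)) : Prop :=
  ∀ B : Subalgebra ℂ (ℕ → ℂ), SeqField B → ∀ x : ℕ → Fin (N + 1) → ℂ, (∀ᶠ m in atTop, x m ≠ 0) →
    (∀ j, Recurrent B fun m => x m j) → (∀ᶠ m in atTop, On σ I (x m)) →
    (∀ᶠ m in atTop, ¬ On σ I' (x m)) → EventuallyPeriodic x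

/-- Let `L` be a finite extension of `K`, with an embedding `τ` which extends `σ`, and let `B` be a
finitely generated field of sequences of transcendence degree at most one. Every sequence of points
of `X(L)` outside of `Z(L)` with homogeneous coordinates satisfying linear recurrences over `B` has
only finitely many different terms. -/
def RationalFinite (σ : K →+* ℂ) (I I' : Ideal (MvPolynomial (Fin (N + 1)) K)) : Prop :=
  ∀ (L : Type) [Field L] [NumberField L] [Algebra K L] (τ : L →+* ℂ),
    τ.comp (algebraMap K L) = σ → ∀ B : Subalgebra ℂ (ℕ → ℂ), SeqField B →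
    ∀ (x : ℕ → Fin (N + 1) → L) (hx : ∀ m, x m ≠ 0), (∀ j, Recurrent B fun m => τ (x m j)) →
    (∀ m, On (algebraMap K L) I (x m)) → (∀ m, ¬ On (algebraMap K L) I' (x m)) →
    (Set.range fun m => Projectivization.mk L (x m) (hx m)).Finite

/-- Let `F` be the function field and let `y` be the generic point, in homogeneous coordinates, of a
closed subvariety of `X_σ` of dimension `w > 0` which is not contained in `Z_σ`. Then the subvariety
is of general type. -/
def SubvarietiesGeneralType (σ : K →+* ℂ) (I I' : Ideal (MvPolynomial (Fin (N + 1)) K)) : Prop :=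
  ∀ (F : Type) [Field F] [Algebra ℂ F] (w : ℕ) (y : Fin (N + 1) → F), 1 ≤ w →
    Algebra.trdeg ℂ F = w → y ≠ 0 → coords ℂ y = ⊤ →
    On ((algebraMap ℂ F).comp σ) I y → ¬ On ((algebraMap ℂ F).comp σ) I' y →
    GeneralType ℂ F w

/-- For every smooth projective curve (with function field `L`) the degrees of the morphisms from the
curve to `X_σ`, whose image is not contained in `Z_σ`, are bounded. -/
def BoundedModulo (σ : K →+* ℂ) (I I' : Ideal (MvPolynomial (Fin (N + 1)) K)) : Prop :=
  ∀ (L : Type) [Field L] [Algebra ℂ L] [IsFF ℂ L], ∃ B : ℤ, ∀ f : Fin (N + 1) → L, f ≠ 0 →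
    On ((algebraMap ℂ L).comp σ) I f → ¬ On ((algebraMap ℂ L).comp σ) I' f → pht ℂ f ≤ B

open Pool.Agent.TH143.HE (IsPtP)
open Pool.Agent.X332.TO Pool.Agent.Y719.LC
open Pool.Agent.TH143.GE (GenusOneIn FinGen Tow1 tow1_good exists_bad)
open Pool.Agent.TH143.DE (CoefField CoefRing TrLe LinRec)
open Pool.Agent.TH143.EL (rep_rep TorusMapsIn)

theorem isPtP_emb {L : Type} [Field L] [Algebra K L] {σ : K →+* ℂ} {τ : L →+* ℂ}
    (hτ : τ.comp (algebraMap K L) = σ) (J : Ideal (MvPolynomial (Fin (N + 1)) K))
    (y : Fin (N + 1) → L) : IsPtP σ J (fun j => τ (y j)) ↔ IsPtP (algebraMap K L) J y := by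
  have h1 : ∀ G : MvPolynomial (Fin (N + 1)) K,
      eval₂ σ (fun j => τ (y j)) G = τ (eval₂ (algebraMap K L) y G) := by
    intro G
    rw [← hτ]
    exact (MvPolynomial.eval₂_comp_left τ (algebraMap K L) y G).symm
  constructor
  · intro h G hG hd
    have h2 := h G hG hd
    rw [h1, map_eq_zero_iff τ τ.injective] at h2
    exact h2
  · intro h G hG hd
    rw [h1, h G hG hd, map_zero]

theorem finite_of_per {L : Type} [Field L] {τ : L →+* ℂ} {x : ℕ → Fin (N + 1) → L}
    (hx : ∀ m, x m ≠ 0) (h : EventuallyPeriodic fun m j => τ (x m j)) :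
    (Set.range fun m => Projectivization.mk L (x m) (hx m)).Finite := by
  obtain ⟨k, m0, hk, hper⟩ := h
  have hstep : ∀ m, m0 ≤ m → Projectivization.mk L (x (m + k)) (hx (m + k)) =
      Projectivization.mk L (x m) (hx m) := by
    intro m hm
    rw [Projectivization.mk_eq_mk_iff']
    obtain ⟨i0, hi0⟩ := Function.ne_iff.1 (hx m)
    have hi0' : x m i0 ≠ 0 := hi0
    refine ⟨x (m + k) i0 / x m i0, ?_⟩
    funext j
    have h1 : x (m + k) i0 * x m j = x (m + k) j * x m i0 := by
      apply τ.injective
      rw [map_mul, map_mul]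
      exact hper m hm i0 j
    rw [Pi.smul_apply, smul_eq_mul, div_mul_eq_mul_div, h1, mul_div_assoc, div_self hi0', mul_one]
  refine ((Set.finite_lt_nat (m0 + k)).image fun m => Projectivization.mk L (x m) (hx m)).subset ?_
  rintro _ ⟨m, rfl⟩
  induction m using Nat.strong_induction_on with
  | _ m ih =>
    rcases Nat.lt_or_ge m (m0 + k) with h1 | h1
    · exact ⟨m, h1, rfl⟩
    · have h2 := hstep (m - k) (by omega)
      have h3 : m - k + k = m := Nat.sub_add_cancel (by omega)
      simp only [h3] at h2
      have h4 : Projectivization.mk L (x m) (hx m) ∈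
          (fun m => Projectivization.mk L (x m) (hx m)) '' {i | i < m0 + k} := by
        rw [h2]
        exact ih (m - k) (by omega)
      exact h4

/-- tori are built from elliptic functions -/
theorem built_of_torus {ι : Type} (u : ι → ℂ → ℂ) {f : ℂ → ℙ ℂ (Fin (N + 1) → ℂ)} (hf : HolMap f)
    {ω₁ ω₂ : ℂ} (h1 : ∀ z, f (z + ω₁) = f z) (h2 : ∀ z, f (z + ω₂) = f z) :
    BuiltFrom ω₁ ω₂ u f := by
  obtain ⟨h, hl, hr⟩ := Pool.Agent.TH600.LK.torus_coords_ell hf h1 h2
  refine Or.inl ⟨fun j z => h z j, fun j => ?_, hr⟩
  have h0 : (fun z => h z j) ∈ dringB (Ell ω₁ ω₂) u :=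
    ⟨(hl j).1, _, Algebra.subset_adjoin (Or.inl (hl j)), Eventually.of_forall fun _ => rfl⟩
  have h3 := IterLin.quot h0 (dringB (Ell ω₁ ω₂) u).one_mem
  have h4 : (fun z => h z j / (1 : ℂ → ℂ) z) = fun z => h z j := by
    funext z
    exact div_one _
  rwa [h4] at h3

theorem SeqField.coef {B : Subalgebra ℂ (ℕ → ℂ)} (h : SeqField B) : CoefField B :=
  { shift := h.shift, dich := h.dich, inv := h.inv }

theorem torus_iff {σ : K →+* ℂ} {I I' : Ideal (MvPolynomial (Fin (N + 1)) K)} :
    TorusIn σ I I' ↔ TorusMapsIn (cI σ I) (cI σ I') := by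
  constructor
  · intro h ω₁ ω₂ hω f hf h1 h2 hI hnc z
    exact (inV_cI (rep_rep (f z))).2 (h ω₁ ω₂ hω f hf h1 h2
      (fun z => (inV_cI (rep_rep (f z))).1 (hI z)) hnc z)
  · intro h ω₁ ω₂ hω f hf h1 h2 hI hnc z
    exact (inV_cI (rep_rep (f z))).1 (h ω₁ ω₂ hω f hf h1 h2
      (fun z => (inV_cI (rep_rep (f z))).2 (hI z)) hnc z)

theorem rec_of_genus {σ : K →+* ℂ} {I I' : Ideal (MvPolynomial (Fin (N + 1)) K)}
    (h : Pool.Agent.TH143.HE.RatCurvesIn σ I I' ∧ GenusOneIn σ I I') :
    RecurrentPeriodic σ I I' := fun _ hB x h1 h2 h3 h4 =>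
  tow1_good h.1 h.2 (Tow1.base hB.coef hB.fin hB.tr) x h1 h2 h3 h4

theorem genus_of_rec {σ : K →+* ℂ} {I I' : Ideal (MvPolynomial (Fin (N + 1)) K)}
    (h : RecurrentPeriodic σ I I') :
    Pool.Agent.TH143.HE.RatCurvesIn σ I I' ∧ GenusOneIn σ I I' := by
  by_contra hcon
  obtain ⟨B, hB, hF, hT, x, h1, h2, h3, h4, h5⟩ := exists_bad hcon
  exact h5 (h B ⟨hB.shift, hB.dich, hB.inv, hF, hT⟩ x h2 (fun j => linRec_of_mem hB (h1 j)) h3 h4)

/-- **Algebraic, analytic and arithmetic conditions.**

(1) The following conditions are equivalent: all nonconstant holomorphic maps from one-dimensional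
complex tori to `X_σ` have image in `Z_σ`; for every jointly universal family all nonconstant entire
curves in `X_σ` built from elliptic functions and the family lie in `Z_σ`; the same for the Riemann
zeta function; the sequences of points of `X` outside of `Z` given by linear recurrences over
finitely generated fields of sequences of transcendence degree at most one are eventually periodic.

(2) These conditions hold if all subvarieties of `X_σ` of positive dimension, not contained in `Z_σ`,
are of general type, and also if for each curve the degrees of the maps to `X_σ` with image not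
contained in `Z_σ` are bounded.

(3) These conditions imply that, for all number fields `L` containing `K`, the sequences of points
of `X(L)` outside of `Z(L)` given by such recurrences have only finitely many different terms. -/
theorem result [NumberField K] (σ : K →+* ℂ) (I I' : Ideal (MvPolynomial (Fin (N + 1)) K)) :
    [TorusIn σ I I', ∀ (ι : Type) (u : ι → ℂ → ℂ), JointlyUniversal u → BuiltIn u σ I I',
      BuiltIn (fun _ : Unit => riemannZeta) σ I I', RecurrentPeriodic σ I I'].TFAE ∧
    (SubvarietiesGeneralType σ I I' ∨ BoundedModulo σ I I' → TorusIn σ I I') ∧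
    (TorusIn σ I I' → RationalFinite σ I I') ∧
    JointlyUniversal fun _ : Unit => riemannZeta := by
  have h14 : TorusIn σ I I' → RecurrentPeriodic σ I I' := fun h =>
    rec_of_genus (Pool.Agent.X316.ZE.genus_of_torus (torus_iff.1 h))
  have h41 : RecurrentPeriodic σ I I' → TorusIn σ I I' := fun h =>
    torus_iff.2 (Pool.Agent.X316.ZE.torus_of_genus (genus_of_rec h))
  refine ⟨?_, ?_, fun h => ?_, Pool.Agent.X316.ZG.zeta_universal⟩
  · tfae_have 1 → 2 := fun h ι u hu ω₁ ω₂ hω f hf hb hI hnc z =>
      (inV_cI (rep_rep (f z))).1 (Pool.Agent.X316.ZE.built_torus (torus_iff.1 h) hf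
        ⟨ω₁, ω₂, hω, ι, u, hu, hb⟩ (fun z => (inV_cI (rep_rep (f z))).2 (hI z)) hnc z)
    tfae_have 2 → 3 := fun h => h _ _ Pool.Agent.X316.ZG.zeta_universal
    tfae_have 3 → 1 := fun h ω₁ ω₂ hω f hf h1 h2 hI hnc =>
      h ω₁ ω₂ hω f hf (built_of_torus _ hf h1 h2) hI hnc
    tfae_have 1 → 4 := h14
    tfae_have 4 → 1 := h41
    tfae_finish
  · rintro (h | h)
    · refine torus_iff.2 (Pool.Agent.X316.ZE.torus_of_fields fun B hB hF hT x h1 h2 h3 h4 => ?_)
      exact Pool.Agent.X332.GT.fldPer_of_allGT (φ := σ) (I := I) (I' := I') h B hB hF x h1 h2 h3 h4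
    · exact torus_iff.2 (Pool.Agent.X316.ZE.torus_of_genus
        (Pool.Agent.X316.ZE.genusLeOne_of_bdd h))
  · intro L _ _ _ τ hτ B hB x hx hrec hX hZ
    refine finite_of_per hx (h14 h B hB (fun m j => τ (x m j)) ?_ hrec ?_ ?_)
    · refine Eventually.of_forall fun m h0 => hx m ?_
      funext j
      exact (map_eq_zero_iff τ τ.injective).1 (congrFun h0 j)
    · exact Eventually.of_forall fun m => (isPtP_emb hτ I (x m)).2 (hX m)
    · exact Eventually.of_forall fun m h0 => hZ m ((isPtP_emb hτ I' (x m)).1 h0)

end Pool.Agent.Results.MP_c7af3c_ag.UniversalGroupless
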